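import Pool.Agent.H918R5.Fin

set_option autoImplicit false

namespace Pool.Agent.Results.MP_a60711_al.CompleteMetrizable

/-- **Suprema of complete metrizable topologies.** Let `F` be a Hausdorff topological field whose
topology is the coarsest one for which a family of field homomorphisms `f j` to completely
metrizable topological fields `M j` is continuous.  Then `F` embeds into a connected Hausdorff
topological field. -/
theorem result (F : Type) [Field F] [tF : TopologicalSpace F] [IsTopologicalDivisionRing F]
    [T2Space F] (J : Type) (M : J → Type) [∀ j, Field (M j)] [∀ j, UniformSpace (M j)]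
    [∀ j, IsUniformAddGroup (M j)] [∀ j, IsTopologicalDivisionRing (M j)]
    [∀ j, CompleteSpace (M j)] [∀ j, FirstCountableTopology (M j)] [∀ j, T2Space (M j)]
    (f : ∀ j, F →+* M j) (hF : tF = ⨅ j, TopologicalSpace.induced (f j) inferInstance) :
    ∃ (K : Type) (_ : Field K) (_ : TopologicalSpace K),
      IsTopologicalDivisionRing K ∧ T2Space K ∧ ConnectedSpace K ∧
        ∃ g : F →+* K, Topology.IsEmbedding g :=
  Pool.Agent.H918R5.final F
    (Or.inr ⟨J, M, inferInstance, inferInstance, inferInstance, inferInstance, inferInstance,
      inferInstance, inferInstance, f, hF⟩)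

end Pool.Agent.Results.MP_a60711_al.CompleteMetrizable
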