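import Pool.Agent.H918R5.Fin

set_option autoImplicit false

namespace Pool.Agent.Results.MP_a60711_al.CountableFields

/-- **Every countable Hausdorff topological field embeds into a connected Hausdorff topological
field.** -/
theorem result (F : Type) [Field F] [Countable F] [TopologicalSpace F]
    [IsTopologicalDivisionRing F] [T2Space F] :
    ∃ (K : Type) (_ : Field K) (_ : TopologicalSpace K),
      IsTopologicalDivisionRing K ∧ T2Space K ∧ ConnectedSpace K ∧
        ∃ g : F →+* K, Topology.IsEmbedding g :=
  Pool.Agent.H918R5.final F (Or.inl inferInstance)

end Pool.Agent.Results.MP_a60711_al.CountableFields
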