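import Pool.Agent.H918R5.Bdd

set_option autoImplicit false

namespace Pool.Agent.Results.MP_a60711_al.SmallMetrizable

/-- **Metrizable fields with fewer elements than the bounding number.** Let `F` be a Hausdorff
topological field such that every family of functions `ℕ → ℕ` indexed by `F` is eventually
dominated by one function (that is, `|F| < 𝔟`), and whose topology is the supremum of a family of
metrizable (first countable Hausdorff) field topologies.  Then `F` embeds into a connected
Hausdorff topological field. -/
theorem result (F : Type) [Field F] [tF : TopologicalSpace F] [IsTopologicalDivisionRing F]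
    [T2Space F]
    (hb : ∀ f : F → ℕ → ℕ, ∃ g : ℕ → ℕ, ∀ a, ∀ᶠ n in Filter.atTop, f a n ≤ g n)
    (J : Type) (σ : J → TopologicalSpace F)
    (h1 : ∀ j, @IsTopologicalDivisionRing F _ (σ j)) (h2 : ∀ j, @T2Space F (σ j))
    (h3 : ∀ j, @FirstCountableTopology F (σ j)) (hF : tF = ⨅ j, σ j) :
    ∃ (K : Type) (_ : Field K) (_ : TopologicalSpace K),
      IsTopologicalDivisionRing K ∧ T2Space K ∧ ConnectedSpace K ∧
        ∃ g : F →+* K, Topology.IsEmbedding g :=
  Pool.Agent.H918R5.main3 F hb J σ h1 h2 h3 hF

end Pool.Agent.Results.MP_a60711_al.SmallMetrizable
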